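import Mathlib

/-!
The block sequence `u` and the weight products `W`.
-/

open Filter Real

namespace Pool.Agent.Lib.MP_39b2af_an

/-- Block boundaries. -/
noncomputable def u (q : ℝ) : ℕ → ℕ
  | 0 => 1
  | (i + 1) => ⌊((4 ^ (i + 1) * u q i : ℕ) : ℝ) ^ q⌋₊

lemma u_pos_and_ge {q : ℝ} (hq : 1 ≤ q) (i : ℕ) :
    1 ≤ u q i ∧ 4 ^ (i + 1) * u q i ≤ u q (i + 1) := by
  have key : ∀ i, 1 ≤ u q i → 4 ^ (i + 1) * u q i ≤ u q (i + 1) := by
    intro i hi
    rw [u]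
    apply Nat.le_floor
    have h1 : (1 : ℝ) ≤ ((4 ^ (i + 1) * u q i : ℕ) : ℝ) := by
      have : 1 ≤ 4 ^ (i + 1) * u q i := Nat.one_le_iff_ne_zero.mpr (by positivity)
      exact_mod_cast this
    calc ((4 ^ (i + 1) * u q i : ℕ) : ℝ) = ((4 ^ (i + 1) * u q i : ℕ) : ℝ) ^ (1 : ℝ) := by simp
      _ ≤ ((4 ^ (i + 1) * u q i : ℕ) : ℝ) ^ q := Real.rpow_le_rpow_of_exponent_le h1 hq
  induction i with
  | zero => exact ⟨by simp [u], key 0 (by simp [u])⟩
  | succ n ih =>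
    have h1 : 1 ≤ u q (n + 1) := le_trans (Nat.one_le_iff_ne_zero.mpr (by
      have := ih.1
      positivity)) ih.2
    exact ⟨h1, key _ h1⟩

lemma u_pos {q : ℝ} (hq : 1 ≤ q) (i : ℕ) : 1 ≤ u q i := (u_pos_and_ge hq i).1

lemma u_ge {q : ℝ} (hq : 1 ≤ q) (i : ℕ) : 4 ^ (i + 1) * u q i ≤ u q (i + 1) :=
  (u_pos_and_ge hq i).2

lemma four_mul_add_one_le (i : ℕ) : 4 * i + 4 ≤ 4 ^ (i + 1) := by
  induction i with
  | zero => norm_num
  | succ n ih => rw [pow_succ]; omega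

lemma u_ge' {q : ℝ} (hq : 1 ≤ q) (i : ℕ) : (4 * i + 4) * u q i ≤ u q (i + 1) :=
  le_trans (Nat.mul_le_mul_right _ (four_mul_add_one_le i)) (u_ge hq i)

lemma u_lt_succ {q : ℝ} (hq : 1 ≤ q) (i : ℕ) : u q i < u q (i + 1) := by
  have h1 := u_ge' hq i
  have h2 := u_pos hq i
  nlinarith

lemma u_strictMono {q : ℝ} (hq : 1 ≤ q) : StrictMono (u q) :=
  strictMono_nat_of_lt_succ (u_lt_succ hq)

lemma le_u_succ_iff {q : ℝ} (i j : ℕ) :
    j ≤ u q (i + 1) ↔ (j : ℝ) ≤ ((4 ^ (i + 1) * u q i : ℕ) : ℝ) ^ q := by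
  rw [u]
  exact Nat.le_floor_iff (by positivity)

lemma two_pow_le_u {q : ℝ} (hq : 1 ≤ q) (i : ℕ) : 2 ^ (i * i) ≤ u q i := by
  induction i with
  | zero => simp [u]
  | succ n ih =>
    calc 2 ^ ((n + 1) * (n + 1)) ≤ 2 ^ (2 * (n + 1) + n * n) := by
          apply Nat.pow_le_pow_right (by norm_num)
          nlinarith
      _ = 4 ^ (n + 1) * 2 ^ (n * n) := by rw [pow_add, pow_mul]; norm_num
      _ ≤ 4 ^ (n + 1) * u q n := Nat.mul_le_mul_left _ ih
      _ ≤ u q (n + 1) := u_ge hq n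

lemma exists_le_u {q : ℝ} (hq : 1 ≤ q) (n : ℕ) : ∃ i, n ≤ u q (i + 1) :=
  ⟨n, le_trans (Nat.le_succ n) ((u_strictMono hq).le_apply (x := n + 1))⟩

open Classical in
/-- The index of the block containing `n`. -/
noncomputable def idx (q : ℝ) (n : ℕ) : ℕ :=
  if h : ∃ i, n ≤ u q (i + 1) then Nat.find h else 0

lemma le_u_idx {q : ℝ} (hq : 1 ≤ q) (n : ℕ) : n ≤ u q (idx q n + 1) := by
  classical
  unfold idx
  rw [dif_pos (exists_le_u hq n)]
  exact Nat.find_spec (exists_le_u hq n)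

lemma idx_le {q : ℝ} (hq : 1 ≤ q) {n i : ℕ} (h : n ≤ u q (i + 1)) : idx q n ≤ i := by
  classical
  unfold idx
  rw [dif_pos (exists_le_u hq n)]
  exact Nat.find_min' _ h

lemma le_idx {q : ℝ} (hq : 1 ≤ q) {n i : ℕ} (h : u q i < n) : i ≤ idx q n := by
  by_contra hlt
  push Not at hlt
  have h1 := le_u_idx hq n
  have h2 : u q (idx q n + 1) ≤ u q i := (u_strictMono hq).monotone hlt
  omega

lemma idx_eq {q : ℝ} (hq : 1 ≤ q) {n i : ℕ} (h1 : u q i < n) (h2 : n ≤ u q (i + 1)) :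
    idx q n = i :=
  le_antisymm (idx_le hq h2) (le_idx hq h1)

lemma idx_u {q : ℝ} (hq : 1 ≤ q) (i : ℕ) : idx q (u q (i + 1)) = i :=
  idx_eq hq (u_lt_succ hq i) le_rfl

/-- The exponent of the weight products. -/
noncomputable def ex (q : ℝ) (n : ℕ) : ℝ :=
  max 0 (2 * (idx q n : ℝ) - ((u q (idx q n + 1) : ℝ) - n) / (2 * u q (idx q n)))

lemma ex_nonneg (q : ℝ) (n : ℕ) : 0 ≤ ex q n := le_max_left _ _

lemma ex_sub {q : ℝ} (hq : 1 ≤ q) {i j m : ℕ} (hj : j ≤ 2 * u q i)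
    (hi : i = 0 ∨ u q i < m + j) : ex q (m + j) ≤ ex q m + 1 := by
  -- the block of `m + j`
  set k := idx q (m + j) with hk
  have hik : i ≤ k := by
    rcases hi with rfl | hi
    · exact Nat.zero_le _
    · exact le_idx hq hi
  have huik : (u q i : ℝ) ≤ u q k := by exact_mod_cast (u_strictMono hq).monotone hik
  have huk : (1 : ℝ) ≤ u q k := by exact_mod_cast u_pos hq k
  have hj' : (j : ℝ) ≤ 2 * u q k := by
    have : (j : ℝ) ≤ 2 * u q i := by exact_mod_cast hj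
    linarith
  have hjd : (j : ℝ) / (2 * u q k) ≤ 1 := by
    rw [div_le_one (by positivity)]; exact hj'
  have hjd0 : 0 ≤ (j : ℝ) / (2 * u q k) := by positivity
  suffices h : ex q (m + j) ≤ ex q m + (j : ℝ) / (2 * u q k) by linarith
  by_cases hcase : ex q (m + j) ≤ (j : ℝ) / (2 * u q k)
  · have := ex_nonneg q m
    linarith
  · push Not at hcase
    have hex : ex q (m + j) =
        2 * (k : ℝ) - ((u q (k + 1) : ℝ) - ((m + j : ℕ) : ℝ)) / (2 * u q k) := by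
      unfold ex at hcase ⊢
      rw [← hk] at hcase ⊢
      rcases max_choice (0 : ℝ)
        (2 * (k : ℝ) - ((u q (k + 1) : ℝ) - ((m + j : ℕ) : ℝ)) / (2 * u q k)) with h | h
      · rw [h] at hcase
        linarith
      · exact h
    have hlow : (u q k : ℝ) < m := by
      rw [hex] at hcase
      have h1 : ((u q (k + 1) : ℝ) - ((m + j : ℕ) : ℝ)) / (2 * u q k) + (j : ℝ) / (2 * u q k)
          < 2 * (k : ℝ) := by linarith
      rw [← add_div, div_lt_iff₀ (by positivity)] at h1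
      push_cast at h1
      have h2 : ((4 * k + 4 : ℕ) : ℝ) * u q k ≤ u q (k + 1) := by exact_mod_cast u_ge' hq k
      push_cast at h2
      nlinarith
    have hlow' : u q k < m := by exact_mod_cast hlow
    have hidx : idx q m = k := idx_eq hq hlow' (by
      have := le_u_idx hq (m + j)
      rw [← hk] at this
      omega)
    have hexm : 2 * (k : ℝ) - ((u q (k + 1) : ℝ) - (m : ℝ)) / (2 * u q k) ≤ ex q m := by
      unfold ex
      rw [hidx]
      exact le_max_right _ _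
    rw [hex]
    have : ((u q (k + 1) : ℝ) - ((m + j : ℕ) : ℝ)) / (2 * u q k) =
        ((u q (k + 1) : ℝ) - (m : ℝ)) / (2 * u q k) - (j : ℝ) / (2 * u q k) := by
      rw [← sub_div]; push_cast; ring_nf
    rw [this]
    linarith

lemma ex_u {q : ℝ} (hq : 1 ≤ q) (i : ℕ) : ex q (u q (i + 1)) = 2 * i := by
  unfold ex
  rw [idx_u hq]
  simp

lemma ex_flat {q : ℝ} (hq : 1 ≤ q) {i j : ℕ} (h1 : 4 * i * u q i ≤ j)
    (h2 : j + u q i < u q (i + 1)) : ex q (u q (i + 1) - j) = 0 := by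
  unfold ex
  have hidx : idx q (u q (i + 1) - j) = i := idx_eq hq (by omega) (by omega)
  rw [hidx]
  apply max_eq_left
  have hu : (1 : ℝ) ≤ u q i := by exact_mod_cast u_pos hq i
  have hc : ((u q (i + 1) - j : ℕ) : ℝ) = (u q (i + 1) : ℝ) - j := by
    rw [Nat.cast_sub (by omega)]
  rw [hc]
  have h1' : (4 : ℝ) * i * u q i ≤ j := by exact_mod_cast h1
  have : 2 * (i : ℝ) ≤ ((u q (i + 1) : ℝ) - ((u q (i + 1) : ℝ) - j)) / (2 * u q i) := by
    rw [le_div_iff₀ (by positivity)]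
    linarith
  linarith

/-- The weight products. -/
noncomputable def W (q : ℝ) (n : ℕ) : ℝ := (2 : ℝ) ^ ex q n

lemma W_pos (q : ℝ) (n : ℕ) : 0 < W q n := Real.rpow_pos_of_pos (by norm_num) _

lemma W_le {q : ℝ} (hq : 1 ≤ q) {i j m : ℕ} (hj : j ≤ 2 * u q i)
    (hi : i = 0 ∨ u q i < m + j) : W q (m + j) ≤ 2 * W q m := by
  unfold W
  calc (2 : ℝ) ^ ex q (m + j) ≤ (2 : ℝ) ^ (ex q m + 1) :=
        Real.rpow_le_rpow_of_exponent_le (by norm_num) (ex_sub hq hj hi)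
    _ = 2 * (2 : ℝ) ^ ex q m := by
        rw [Real.rpow_add (by norm_num)]; simp; ring

lemma W_u {q : ℝ} (hq : 1 ≤ q) (i : ℕ) : W q (u q (i + 1)) = 4 ^ i := by
  unfold W
  rw [ex_u hq]
  rw [show (2 : ℝ) * (i : ℝ) = ((2 * i : ℕ) : ℝ) by push_cast; ring, Real.rpow_natCast, pow_mul]
  norm_num

lemma W_flat {q : ℝ} (hq : 1 ≤ q) {i j : ℕ} (h1 : 4 * i * u q i ≤ j)
    (h2 : j + u q i < u q (i + 1)) : W q (u q (i + 1) - j) = 1 := by
  unfold W
  rw [ex_flat hq h1 h2]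
  simp

end Pool.Agent.Lib.MP_39b2af_an
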