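import Mathlib

/-!
Definitions for the problem on weighted backward shifts with an exact exponent of
distributional chaos.
-/

open Filter
open scoped ENNReal

namespace Pool.Agent.Lib.MP_39b2af_an

/-- The lower `q`-density of a set `A` of positive integers:
`liminf_{n → ∞} |A ∩ [1, n ^ q]| / n`, as an element of `[0, ∞]`. -/
noncomputable def lowerDensity (q : ℝ) (A : Set ℕ) : ℝ≥0∞ :=
  liminf (fun n : ℕ =>
    ((Set.ncard {j : ℕ | j ∈ A ∧ 1 ≤ j ∧ (j : ℝ) ≤ (n : ℝ) ^ q} : ℕ) : ℝ≥0∞) / (n : ℝ≥0∞)) atTop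

variable {𝕜 X : Type*} [RCLike 𝕜] [NormedAddCommGroup X] [NormedSpace 𝕜 X]

/-- `S` is a `lam`-distributionally scrambled set for `T`: there is `σ > 0` such that for all
distinct `x, y ∈ S` the set of times `j` with `‖T ^ j x - T ^ j y‖ < σ` has lower
`1 / lam`-density zero and, for every `ε > 0`, so has the set of times `j` with
`‖T ^ j x - T ^ j y‖ > ε`. -/
def IsScrambled (lam : ℝ) (T : X →L[𝕜] X) (S : Set X) : Prop :=
  ∃ σ : ℝ, 0 < σ ∧ ∀ x ∈ S, ∀ y ∈ S, x ≠ y →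
    lowerDensity (1 / lam) {j : ℕ | ‖T^[j] x - T^[j] y‖ < σ} = 0 ∧
    ∀ ε : ℝ, 0 < ε → lowerDensity (1 / lam) {j : ℕ | ‖T^[j] x - T^[j] y‖ > ε} = 0

/-- `T` is `lam`-distributionally chaotic. -/
def DistChaotic (lam : ℝ) (T : X →L[𝕜] X) : Prop :=
  ∃ S : Set X, ¬ S.Countable ∧ IsScrambled lam T S

/-- `T` is densely `lam`-distributionally chaotic. -/
def DenselyDistChaotic (lam : ℝ) (T : X →L[𝕜] X) : Prop :=
  ∃ S : Set X, ¬ S.Countable ∧ Dense S ∧ IsScrambled lam T S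

/-- `T` is the weighted backward shift with weights `w`, where `c x` is the sequence of
coordinates of `x`, indexed by `0, 1, 2, …`: `T` sends `(x_n)` to `(w_(n+1) x_(n+1))`. -/
def IsBackwardShift (c : X → ℕ → 𝕜) (w : ℕ → ℝ) (T : X →L[𝕜] X) : Prop :=
  ∀ (x : X) (n : ℕ), c (T x) n = (w (n + 1) : 𝕜) * c x (n + 1)

/-- The weighted backward shift with weights `w` acts on `X` (with coordinates `c`), is densely
`lam`-distributionally chaotic, and is not `lam'`-distributionally chaotic for any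
`lam' ∈ (0, lam)`. -/
def ShiftHasExponent (c : X → ℕ → 𝕜) (w : ℕ → ℝ) (lam : ℝ) : Prop :=
  ∃ T : X →L[𝕜] X, IsBackwardShift c w T ∧ DenselyDistChaotic lam T ∧
    ∀ lam' : ℝ, 0 < lam' → lam' < lam → ¬ DistChaotic lam' T

end Pool.Agent.Lib.MP_39b2af_an
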