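import Mathlib
import Pool.Agent.Lib.MP_39b2af_an.Defs
import Pool.Agent.Lib.MP_39b2af_an.Blocks

/-!
Lower densities along the block sequence.
-/

open Filter Real
open scoped ENNReal

namespace Pool.Agent.Lib.MP_39b2af_an

lemma finite_aux (q : ℝ) (A : Set ℕ) (n : ℕ) :
    {j : ℕ | j ∈ A ∧ 1 ≤ j ∧ (j : ℝ) ≤ (n : ℝ) ^ q}.Finite := by
  apply (Set.finite_Iic ⌊(n : ℝ) ^ q⌋₊).subset
  rintro j ⟨_, _, hj⟩
  exact Nat.le_floor hj

lemma lowerDensity_mono (q : ℝ) {A B : Set ℕ} (h : A ⊆ B) :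
    lowerDensity q A ≤ lowerDensity q B := by
  refine liminf_le_liminf (Eventually.of_forall ?_)
  intro n
  have h1 : Set.ncard {j : ℕ | j ∈ A ∧ 1 ≤ j ∧ (j : ℝ) ≤ (n : ℝ) ^ q} ≤
      Set.ncard {j : ℕ | j ∈ B ∧ 1 ≤ j ∧ (j : ℝ) ≤ (n : ℝ) ^ q} := by
    apply Set.ncard_le_ncard _ (finite_aux q B n)
    rintro j ⟨hj1, hj2⟩
    exact ⟨h hj1, hj2⟩
  have h2 : ((Set.ncard {j : ℕ | j ∈ A ∧ 1 ≤ j ∧ (j : ℝ) ≤ (n : ℝ) ^ q} : ℕ) : ℝ≥0∞) ≤
      ((Set.ncard {j : ℕ | j ∈ B ∧ 1 ≤ j ∧ (j : ℝ) ≤ (n : ℝ) ^ q} : ℕ) : ℝ≥0∞) := by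
    exact_mod_cast h1
  exact ENNReal.div_le_div_right h2 _

lemma lowerDensity_univ_ne_zero {q : ℝ} (hq : 1 ≤ q) : lowerDensity q Set.univ ≠ 0 := by
  suffices h : (1 : ℝ≥0∞) ≤ lowerDensity q Set.univ by
    intro h0
    rw [h0] at h
    simp at h
  apply le_liminf_of_le
  · isBoundedDefault
  filter_upwards [eventually_ge_atTop 1] with n hn
  have hsub : ((Finset.Icc 1 n : Finset ℕ) : Set ℕ) ⊆
      {j : ℕ | j ∈ Set.univ ∧ 1 ≤ j ∧ (j : ℝ) ≤ (n : ℝ) ^ q} := by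
    intro j hj
    rw [Finset.coe_Icc, Set.mem_Icc] at hj
    refine ⟨trivial, hj.1, ?_⟩
    have h1 : (j : ℝ) ≤ n := by exact_mod_cast hj.2
    have h2 : (1 : ℝ) ≤ n := by exact_mod_cast hn
    calc (j : ℝ) ≤ (n : ℝ) ^ (1 : ℝ) := by simpa using h1
      _ ≤ (n : ℝ) ^ q := Real.rpow_le_rpow_of_exponent_le h2 hq
  have h1 := Set.ncard_le_ncard hsub (finite_aux q Set.univ n)
  rw [Set.ncard_coe_finset, Nat.card_Icc, Nat.add_sub_cancel] at h1
  have hn0 : (n : ℝ≥0∞) ≠ 0 := by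
    simp only [ne_eq, Nat.cast_eq_zero]; omega
  rw [ENNReal.le_div_iff_mul_le (Or.inl hn0) (Or.inl (ENNReal.natCast_ne_top n)), one_mul]
  exact_mod_cast h1

/-- If infinitely often few elements of `A` lie in `[1, u (i + 1)]`, then the lower density
vanishes. -/
lemma lowerDensity_eq_zero {q : ℝ} (hq : 1 ≤ q) {A : Set ℕ}
    (h : ∀ δ : ℝ, 0 < δ → ∃ᶠ i in atTop,
      (Set.ncard {j : ℕ | j ∈ A ∧ 1 ≤ j ∧ j ≤ u q (i + 1)} : ℝ)
        ≤ δ * ((4 ^ (i + 1) * u q i : ℕ) : ℝ)) :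
    lowerDensity q A = 0 := by
  refine le_antisymm ?_ bot_le
  refine ENNReal.le_of_forall_pos_le_add ?_
  intro δ hδ _
  rw [zero_add]
  apply liminf_le_of_frequently_le'
  have hfr := h δ (by exact_mod_cast hδ)
  have htend : Tendsto (fun i => 4 ^ (i + 1) * u q i) atTop atTop := by
    apply tendsto_atTop_mono (f := fun i => i) _ tendsto_id
    intro i
    have h1 := four_mul_add_one_le i
    have h2 := u_pos hq i
    nlinarith
  refine htend.frequently (p := fun n : ℕ => ((Set.ncard {j : ℕ | j ∈ A ∧ 1 ≤ j ∧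
    (j : ℝ) ≤ (n : ℝ) ^ q} : ℕ) : ℝ≥0∞) / (n : ℝ≥0∞) ≤ (δ : ℝ≥0∞)) ?_
  refine hfr.mono ?_
  intro i hi
  have hset : {j : ℕ | j ∈ A ∧ 1 ≤ j ∧ (j : ℝ) ≤ ((4 ^ (i + 1) * u q i : ℕ) : ℝ) ^ q} =
      {j : ℕ | j ∈ A ∧ 1 ≤ j ∧ j ≤ u q (i + 1)} := by
    ext j
    show (_ ∧ _ ∧ _) ↔ (_ ∧ _ ∧ _)
    rw [le_u_succ_iff]
  rw [hset]
  apply ENNReal.div_le_of_le_mul
  have : ((Set.ncard {j : ℕ | j ∈ A ∧ 1 ≤ j ∧ j ≤ u q (i + 1)} : NNReal) : ℝ≥0∞) ≤
      ((δ * ((4 ^ (i + 1) * u q i : ℕ) : NNReal) : NNReal) : ℝ≥0∞) := by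
    rw [ENNReal.coe_le_coe, ← NNReal.coe_le_coe]
    push_cast at hi ⊢
    exact hi
  simpa using this

/-- A set containing the blocks `(u i, 2 u i]` has positive lower density for each larger
exponent. -/
lemma lowerDensity_ne_zero {q q' : ℝ} (hq : 1 ≤ q) (hqq : q < q') {A : Set ℕ} {i₀ : ℕ}
    (hA : ∀ i, i₀ ≤ i → ∀ j, u q i < j → j ≤ 2 * u q i → j ∈ A) :
    lowerDensity q' A ≠ 0 := by
  have hq0 : 0 < q := by linarith
  have hq'0 : 0 < q' := by linarith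
  set r := q / q' with hr
  have hr0 : 0 < r := by positivity
  have hr1 : r < 1 := by rw [hr, div_lt_one hq'0]; exact hqq
  suffices h : (1 / 2 : ℝ≥0∞) ≤ lowerDensity q' A by
    intro h0
    rw [h0] at h
    simp at h
  apply le_liminf_of_le
  · isBoundedDefault
  obtain ⟨k₁, hk₁⟩ := exists_nat_ge (4 * r / (1 - r) + 1)
  set K := max i₀ (max k₁ 1) with hK
  -- n large
  have hlarge : ∀ᶠ n : ℕ in atTop, (2 * u q (K + 1) : ℝ) ≤ (n : ℝ) ^ q' :=
    ((tendsto_rpow_atTop hq'0).comp tendsto_natCast_atTop_atTop).eventually_ge_atTop _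
  filter_upwards [hlarge, eventually_ge_atTop 1] with n hn hn1
  have hex : ∃ i, (n : ℝ) ^ q' < 2 * u q (i + 1) := by
    obtain ⟨N, hN⟩ := exists_nat_gt ((n : ℝ) ^ q')
    obtain ⟨i, hi⟩ := exists_le_u hq N
    refine ⟨i, ?_⟩
    have h1 : (N : ℝ) ≤ u q (i + 1) := by exact_mod_cast hi
    have h2 : (1 : ℝ) ≤ u q (i + 1) := by exact_mod_cast u_pos hq (i + 1)
    linarith
  classical
  set k := Nat.find hex with hk
  have hk1 : (n : ℝ) ^ q' < 2 * u q (k + 1) := Nat.find_spec hex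
  have hKk : K < k := by
    by_contra hle
    push Not at hle
    have : (u q (k + 1) : ℝ) ≤ u q (K + 1) := by
      exact_mod_cast (u_strictMono hq).monotone (by omega)
    linarith
  have hk2 : 2 * (u q k : ℝ) ≤ (n : ℝ) ^ q' := by
    have hlt : k - 1 < k := by omega
    have := Nat.find_min hex hlt
    push Not at this
    rwa [show k - 1 + 1 = k by omega] at this
  -- the bound `n ≤ 2 u k`
  have huk : (1 : ℝ) ≤ u q k := by exact_mod_cast u_pos hq k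
  have hnle : (n : ℝ) ≤ 2 * u q k := by
    have hm : ((u q (k + 1) : ℕ) : ℝ) ≤ ((4 ^ (k + 1) * u q k : ℕ) : ℝ) ^ q :=
      (le_u_succ_iff k _).mp le_rfl
    have hmpos : (1 : ℝ) ≤ ((4 ^ (k + 1) * u q k : ℕ) : ℝ) := by
      have : 1 ≤ 4 ^ (k + 1) * u q k := Nat.one_le_iff_ne_zero.mpr (by
        have := u_pos hq k
        positivity)
      exact_mod_cast this
    set m : ℝ := ((4 ^ (k + 1) * u q k : ℕ) : ℝ) with hmdef
    have h1 : (n : ℝ) ^ q' ≤ (2 * m ^ r) ^ q' := by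
      rw [Real.mul_rpow (by norm_num) (by positivity), ← Real.rpow_mul (by linarith)]
      have hrq : r * q' = q := by rw [hr]; field_simp
      rw [hrq]
      have h2 : (2 : ℝ) ≤ 2 ^ q' := by
        calc (2 : ℝ) = 2 ^ (1 : ℝ) := by simp
          _ ≤ 2 ^ q' := Real.rpow_le_rpow_of_exponent_le (by norm_num) (by linarith)
      calc (n : ℝ) ^ q' ≤ 2 * u q (k + 1) := hk1.le
        _ ≤ 2 * m ^ q := by linarith
        _ ≤ 2 ^ q' * m ^ q := by
          apply mul_le_mul_of_nonneg_right h2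
          positivity
    have h3 : (n : ℝ) ≤ 2 * m ^ r := by
      by_contra hlt
      push Not at hlt
      have := Real.rpow_lt_rpow (by positivity) hlt hq'0
      linarith
    have h4 : m ^ r ≤ u q k := by
      rw [hmdef]
      push_cast
      rw [Real.mul_rpow (by positivity) (by positivity)]
      have h5 : (u q k : ℝ) = (u q k : ℝ) ^ (1 - r) * (u q k : ℝ) ^ r := by
        rw [← Real.rpow_add (by linarith)]
        simp
      have h6 : ((4 : ℝ) ^ (k + 1)) ^ r ≤ (u q k : ℝ) ^ (1 - r) := by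
        have h7 : ((2 : ℝ) ^ (k * k)) ≤ u q k := by exact_mod_cast two_pow_le_u hq k
        calc ((4 : ℝ) ^ (k + 1)) ^ r = (2 : ℝ) ^ ((2 * (k + 1) : ℝ) * r) := by
              rw [Real.rpow_mul (by norm_num)]
              congr 1
              rw [show (2 * ((k : ℝ) + 1)) = ((2 * (k + 1) : ℕ) : ℝ) by push_cast; ring,
                Real.rpow_natCast, pow_mul]
              norm_num
          _ ≤ (2 : ℝ) ^ ((k * k : ℝ) * (1 - r)) := by
              apply Real.rpow_le_rpow_of_exponent_le (by norm_num)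
              have hk₁k : (k₁ : ℝ) ≤ k := by
                have : k₁ ≤ k := le_trans (le_trans (le_max_left _ _) (le_max_right _ _)) hKk.le
                exact_mod_cast this
              have h1k : (1 : ℝ) ≤ k := by
                have : 1 ≤ k := le_trans (le_trans (le_max_right _ _) (le_max_right _ _)) hKk.le
                exact_mod_cast this
              have h8 : 4 * r / (1 - r) ≤ k := by linarith
              rw [div_le_iff₀ (by linarith)] at h8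
              nlinarith
          _ = ((2 : ℝ) ^ (k * k)) ^ (1 - r) := by
              rw [Real.rpow_mul (by norm_num)]
              congr 1
              rw [show ((k : ℝ) * k) = ((k * k : ℕ) : ℝ) by push_cast; ring, Real.rpow_natCast]
          _ ≤ (u q k : ℝ) ^ (1 - r) := by
              apply Real.rpow_le_rpow (by positivity) h7 (by linarith)
      calc ((4 : ℝ) ^ (k + 1)) ^ r * (u q k : ℝ) ^ r
          ≤ (u q k : ℝ) ^ (1 - r) * (u q k : ℝ) ^ r := by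
            apply mul_le_mul_of_nonneg_right h6
            positivity
        _ = u q k := h5.symm
    linarith
  -- counting
  have hcount : u q k ≤ Set.ncard {j : ℕ | j ∈ A ∧ 1 ≤ j ∧ (j : ℝ) ≤ (n : ℝ) ^ q'} := by
    have hsub : ((Finset.Ioc (u q k) (2 * u q k) : Finset ℕ) : Set ℕ) ⊆
        {j : ℕ | j ∈ A ∧ 1 ≤ j ∧ (j : ℝ) ≤ (n : ℝ) ^ q'} := by
      intro j hj
      rw [Finset.coe_Ioc, Set.mem_Ioc] at hj
      refine ⟨hA k (le_trans (le_max_left _ _) hKk.le) j hj.1 hj.2, by omega, ?_⟩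
      have : (j : ℝ) ≤ 2 * u q k := by exact_mod_cast hj.2
      linarith
    have h1 := Set.ncard_le_ncard hsub (finite_aux q' A n)
    rw [Set.ncard_coe_finset, Nat.card_Ioc] at h1
    omega
  have hn0 : (n : ℝ≥0∞) ≠ 0 := by
    simp only [ne_eq, Nat.cast_eq_zero]; omega
  rw [ENNReal.le_div_iff_mul_le (Or.inl hn0) (Or.inl (ENNReal.natCast_ne_top n))]
  have hnle' : n ≤ 2 * Set.ncard {j : ℕ | j ∈ A ∧ 1 ≤ j ∧ (j : ℝ) ≤ (n : ℝ) ^ q'} := by
    have h1 : n ≤ 2 * u q k := by exact_mod_cast hnle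
    omega
  have hcast : (n : ℝ≥0∞) ≤
      2 * ((Set.ncard {j : ℕ | j ∈ A ∧ 1 ≤ j ∧ (j : ℝ) ≤ (n : ℝ) ^ q'} : ℕ) : ℝ≥0∞) := by
    exact_mod_cast hnle'
  calc (1 / 2 : ℝ≥0∞) * n ≤ (1 / 2) *
        (2 * ((Set.ncard {j : ℕ | j ∈ A ∧ 1 ≤ j ∧ (j : ℝ) ≤ (n : ℝ) ^ q'} : ℕ) : ℝ≥0∞)) := by
        gcongr
    _ = ((Set.ncard {j : ℕ | j ∈ A ∧ 1 ≤ j ∧ (j : ℝ) ≤ (n : ℝ) ^ q'} : ℕ) : ℝ≥0∞) := by
        rw [← mul_assoc, one_div, ENNReal.inv_mul_cancel (by norm_num) (by norm_num), one_mul]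

end Pool.Agent.Lib.MP_39b2af_an
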