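import Mathlib
import Pool.Agent.Lib.MP_39b2af_an.Density

/-!
The construction in an abstract solid sequence space.
-/

open Filter Real Topology
open scoped ENNReal

namespace Pool.Agent.Lib.MP_39b2af_an

variable {𝕜 X : Type*} [RCLike 𝕜] [NormedAddCommGroup X] [NormedSpace 𝕜 X]

/-- The properties of the sequence spaces `ℓ^p` and `c_0` used in the construction. -/
structure SeqSpace (c : X →ₗ[𝕜] (ℕ → 𝕜)) : Prop where
  inj : Function.Injective c
  coord_le : ∀ x n, ‖c x n‖ ≤ ‖x‖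
  solid : ∀ (x : X) (a : ℕ → 𝕜) (j : ℕ) (C : ℝ), 0 ≤ C → (∀ n, ‖a n‖ ≤ C * ‖c x (n + j)‖) →
    ∃ y : X, c y = a ∧ ‖y‖ ≤ C * ‖x‖
  summ : ∀ a : ℕ → 𝕜, Summable (fun n => ‖a n‖) → ∃ y, c y = a
  tail : ∀ (x : X) (ε : ℝ), 0 < ε → ∃ N, ∀ y : X, (∀ n, N ≤ n → c y n = c x n) →
    (∀ n, n < N → c y n = 0) → ‖y‖ < ε

/-- The weights. -/
noncomputable def wt (q : ℝ) (n : ℕ) : ℝ := W q n / W q (n - 1)

lemma wt_pos (q : ℝ) (n : ℕ) : 0 < wt q n := div_pos (W_pos q n) (W_pos q _)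

lemma wt_le {q : ℝ} (hq : 1 ≤ q) (n : ℕ) : wt q n ≤ 2 := by
  unfold wt
  rw [div_le_iff₀ (W_pos q _)]
  rcases Nat.eq_zero_or_pos n with rfl | hn
  · have := W_pos q 0
    simp only [Nat.zero_sub]
    linarith
  · have h := W_le hq (i := 0) (j := 1) (m := n - 1) (by simp [u]) (Or.inl rfl)
    rwa [Nat.sub_add_cancel hn] at h

section shift

variable {c : X →ₗ[𝕜] (ℕ → 𝕜)}

lemma exists_shift (hS : SeqSpace c) {q : ℝ} (hq : 1 ≤ q) :
    ∃ T : X →L[𝕜] X, ∀ x n, c (T x) n = (wt q (n + 1) : 𝕜) * c x (n + 1) := by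
  have hex : ∀ x : X, ∃ y : X, c y = (fun n => (wt q (n + 1) : 𝕜) * c x (n + 1)) ∧
      ‖y‖ ≤ 2 * ‖x‖ := by
    intro x
    apply hS.solid x _ 1 2 (by norm_num)
    intro n
    rw [norm_mul, RCLike.norm_ofReal, abs_of_pos (wt_pos q _)]
    exact mul_le_mul_of_nonneg_right (wt_le hq _) (norm_nonneg _)
  choose T hT hTn using hex
  let L : X →ₗ[𝕜] X :=
    { toFun := T
      map_add' := by
        intro x y
        apply hS.inj
        rw [map_add, hT, hT, hT]
        funext n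
        simp only [map_add, Pi.add_apply]
        ring
      map_smul' := by
        intro a x
        apply hS.inj
        rw [map_smul, hT, hT]
        funext n
        simp only [map_smul, Pi.smul_apply, smul_eq_mul, RingHom.id_apply]
        ring }
  refine ⟨L.mkContinuous 2 hTn, ?_⟩
  intro x n
  show c (T x) n = _
  rw [hT]

variable {q : ℝ} {T : X →L[𝕜] X}

lemma coord_pow (hT : ∀ x n, c (T x) n = (wt q (n + 1) : 𝕜) * c x (n + 1)) (j : ℕ) :
    ∀ x n, c ((T ^ j) x) n = ((W q (n + j) / W q n : ℝ) : 𝕜) * c x (n + j) := by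
  induction j with
  | zero =>
    intro x n
    have := (W_pos q n).ne'
    simp [this]
  | succ j ih =>
    intro x n
    rw [pow_succ, mul_apply_eq_comp, ih, hT, ← mul_assoc, ← RCLike.ofReal_mul]
    congr 2
    unfold wt
    have h1 := (W_pos q n).ne'
    have h2 := (W_pos q (n + j)).ne'
    simp only [Nat.add_sub_cancel]
    rw [← add_assoc]
    field_simp

/-- Vectors supported beyond the beginning of block `i` grow at most by a factor two under the
first `2 u i` iterates. -/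
lemma norm_pow_le (hS : SeqSpace c) (hq : 1 ≤ q)
    (hT : ∀ x n, c (T x) n = (wt q (n + 1) : 𝕜) * c x (n + 1)) {i j : ℕ} (hj : j ≤ 2 * u q i)
    (x : X) (hx : ∀ n, n + j ≤ u q i → c x (n + j) = 0) : ‖(T ^ j) x‖ ≤ 2 * ‖x‖ := by
  obtain ⟨y, hy, hyn⟩ := hS.solid x (c ((T ^ j) x)) j 2 (by norm_num) (by
    intro n
    rw [coord_pow hT]
    by_cases hn : n + j ≤ u q i
    · rw [hx n hn]; simp
    · push Not at hn
      rw [norm_mul, RCLike.norm_ofReal,
        abs_of_pos (div_pos (W_pos q _) (W_pos q _))]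
      apply mul_le_mul_of_nonneg_right _ (norm_nonneg _)
      rw [div_le_iff₀ (W_pos q _)]
      exact W_le hq hj (Or.inr hn))
  rw [← hS.inj hy]
  exact hyn

/-- Every orbit tends to zero along the union of the blocks `(u i, 2 u i]`. -/
lemma small_on_blocks (hS : SeqSpace c) (hq : 1 ≤ q)
    (hT : ∀ x n, c (T x) n = (wt q (n + 1) : 𝕜) * c x (n + 1)) (x : X) {ε : ℝ} (hε : 0 < ε) :
    ∃ i₀, ∀ i, i₀ ≤ i → ∀ j, u q i < j → j ≤ 2 * u q i → ‖(T ^ j) x‖ < ε := by
  obtain ⟨N, hN⟩ := hS.tail x (ε / 3) (by positivity)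
  refine ⟨N, fun i hi j hj1 hj2 => ?_⟩
  have hNj : N ≤ j := by
    have h1 : i ≤ u q i := (u_strictMono hq).le_apply
    omega
  obtain ⟨y, hy, -⟩ := hS.solid x (fun n => if n < N then 0 else c x n) 0 1 (by norm_num) (by
    intro n
    split_ifs
    · simp
    · simp)
  have hyn : ‖y‖ < ε / 3 := by
    apply hN
    · intro n hn
      rw [hy]
      simp [not_lt.mpr hn]
    · intro n hn
      rw [hy]
      simp [hn]
  have hxy : (T ^ j) x = (T ^ j) y := by
    apply hS.inj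
    funext n
    rw [coord_pow hT, coord_pow hT, hy]
    simp [show ¬ (n + j < N) by omega]
  rw [hxy]
  have := norm_pow_le hS hq hT hj2 y (by
    intro n hn
    omega)
  linarith

lemma not_chaotic (hS : SeqSpace c) {lam lam' : ℝ} (h0 : 0 < lam) (h1 : lam ≤ 1)
    (h0' : 0 < lam') (hlt : lam' < lam)
    (hT : ∀ x n, c (T x) n = (wt (1 / lam) (n + 1) : 𝕜) * c x (n + 1)) :
    ¬ DistChaotic lam' T := by
  rintro ⟨S, hS1, σ, hσ, hS2⟩
  have hq : 1 ≤ 1 / lam := by rw [le_div_iff₀ h0]; linarith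
  have hnt : S.Nontrivial := by
    by_contra hne
    rw [Set.not_nontrivial_iff] at hne
    exact hS1 hne.countable
  obtain ⟨x, hx, y, hy, hxy⟩ := hnt
  obtain ⟨h2, -⟩ := hS2 x hx y hy hxy
  obtain ⟨i₀, hi₀⟩ := small_on_blocks hS hq hT (x - y) hσ
  refine lowerDensity_ne_zero hq (one_div_lt_one_div_of_lt h0' hlt) (i₀ := i₀) ?_ h2
  intro i hi j hj1 hj2
  show ‖T^[j] x - T^[j] y‖ < σ
  rw [← FunLike.coe_pow_eq_iterate, ← map_sub]
  exact hi₀ i hi j hj1 hj2

end shift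

end Pool.Agent.Lib.MP_39b2af_an
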