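import Mathlib
import Pool.Agent.Lib.MP_39b2af_an.Space

/-!
The irregular vector and the dense scrambled set.
-/

open Filter Real Topology
open scoped ENNReal

namespace Pool.Agent.Lib.MP_39b2af_an

variable {𝕜 X : Type*} [RCLike 𝕜] [NormedAddCommGroup X] [NormedSpace 𝕜 X]
variable {c : X →ₗ[𝕜] (ℕ → 𝕜)} {q : ℝ} {T : X →L[𝕜] X}

/-- Cutting off finitely many coordinates. -/
lemma exists_cut (hS : SeqSpace c) (x : X) (N : ℕ) :
    ∃ y : X, (∀ n, c y n = if n < N then 0 else c x n) ∧ ‖y‖ ≤ ‖x‖ := by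
  obtain ⟨y, hy, hyn⟩ := hS.solid x (fun n => if n < N then 0 else c x n) 0 1 (by norm_num) (by
    intro n
    split_ifs
    · simp
    · simp)
  exact ⟨y, fun n => by rw [hy], by linarith⟩

lemma pow_cut (hS : SeqSpace c)
    (hT : ∀ x n, c (T x) n = (wt q (n + 1) : 𝕜) * c x (n + 1)) {x y : X} {N j : ℕ}
    (hy : ∀ n, c y n = if n < N then 0 else c x n) (hNj : N ≤ j) : (T ^ j) x = (T ^ j) y := by
  apply hS.inj
  funext n
  rw [coord_pow hT, coord_pow hT, hy]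
  simp [show ¬ (n + j < N) by omega]

open Classical in
/-- The coordinates of the irregular vector. -/
noncomputable def irr (𝕜 : Type*) [RCLike 𝕜] (q : ℝ) (n : ℕ) : 𝕜 :=
  if n = u q (idx q n + 1) ∧ Even (idx q n) then (((1 / 2 : ℝ) ^ (idx q n) : ℝ) : 𝕜) else 0

lemma irr_u (hq : 1 ≤ q) {i : ℕ} (hi : Even i) :
    irr 𝕜 q (u q (i + 1)) = (((1 / 2 : ℝ) ^ i : ℝ) : 𝕜) := by
  unfold irr
  rw [idx_u hq, if_pos ⟨rfl, hi⟩]

lemma irr_eq_zero (hq : 1 ≤ q) {k n : ℕ} (h1 : u q (2 * k + 1) < n) (h2 : n ≤ u q (2 * k + 2)) :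
    irr 𝕜 q n = 0 := by
  unfold irr
  have hidx : idx q n = 2 * k + 1 := idx_eq hq h1 h2
  rw [hidx, if_neg]
  rintro ⟨-, h⟩
  exact (Nat.not_even_iff_odd.mpr ⟨k, rfl⟩) h

lemma irr_summable (hq : 1 ≤ q) : Summable (fun n => ‖irr 𝕜 q n‖) := by
  have hinj : Function.Injective (fun i => u q (i + 1)) := by
    intro i j h
    have := (u_strictMono hq).injective h
    omega
  rw [← hinj.summable_iff]
  · apply Summable.of_nonneg_of_le (fun i => norm_nonneg _) _ summable_geometric_two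
    intro i
    show ‖irr 𝕜 q (u q (i + 1))‖ ≤ _
    unfold irr
    rw [idx_u hq]
    split_ifs
    · rw [RCLike.norm_ofReal, abs_of_pos (by positivity)]
    · rw [norm_zero]; positivity
  · intro n hn
    unfold irr
    rw [if_neg, norm_zero]
    rintro ⟨h, -⟩
    exact hn ⟨idx q n, h.symm⟩

/-- Lower bound for the orbit of a perturbed multiple of the irregular vector. -/
lemma norm_pow_ge (hS : SeqSpace c) (hq : 1 ≤ q)
    (hT : ∀ x n, c (T x) n = (wt q (n + 1) : 𝕜) * c x (n + 1)) {z : X} {κ : 𝕜} {M : ℕ}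
    (hz : ∀ n, M ≤ n → c z n = κ * irr 𝕜 q n) {i j : ℕ} (hi : Even i) (hM : M ≤ u q (i + 1))
    (h1 : 4 * i * u q i ≤ j) (h2 : j + u q i < u q (i + 1)) :
    ‖κ‖ * 2 ^ i ≤ ‖(T ^ j) z‖ := by
  refine le_trans (le_of_eq ?_) (hS.coord_le ((T ^ j) z) (u q (i + 1) - j))
  rw [coord_pow hT, Nat.sub_add_cancel (by omega), hz _ hM, irr_u hq hi, W_u hq,
    W_flat hq h1 h2, norm_mul, norm_mul, RCLike.norm_ofReal, RCLike.norm_ofReal,
    abs_of_pos (by positivity), abs_of_pos (by positivity), div_one]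
  have h4 : (4 : ℝ) ^ i = 2 ^ i * 2 ^ i := by
    rw [← mul_pow]; norm_num
  have h5 : (2 : ℝ) ^ i * (1 / 2) ^ i = 1 := by
    rw [← mul_pow]; norm_num
  rw [h4]
  calc ‖κ‖ * 2 ^ i = ‖κ‖ * 2 ^ i * ((2 : ℝ) ^ i * (1 / 2) ^ i) := by rw [h5]; ring
    _ = _ := by ring

lemma ld_small (hS : SeqSpace c) (hq : 1 ≤ q)
    (hT : ∀ x n, c (T x) n = (wt q (n + 1) : 𝕜) * c x (n + 1)) {z : X} {κ : 𝕜} (hκ : κ ≠ 0)
    {M : ℕ} (hz : ∀ n, M ≤ n → c z n = κ * irr 𝕜 q n) :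
    lowerDensity q {j : ℕ | ‖(T ^ j) z‖ < 1} = 0 := by
  apply lowerDensity_eq_zero hq
  intro δ hδ
  have hκ' : 0 < ‖κ‖ := norm_pos_iff.mpr hκ
  have ev1 : ∀ᶠ i : ℕ in atTop, 1 ≤ ‖κ‖ * 2 ^ i := by
    have : Tendsto (fun i : ℕ => ‖κ‖ * (2 : ℝ) ^ i) atTop atTop :=
      (tendsto_pow_atTop_atTop_of_one_lt (by norm_num)).const_mul_atTop hκ'
    exact this.eventually_ge_atTop 1
  have ev2 : ∀ᶠ i : ℕ in atTop, M ≤ u q (i + 1) := by
    filter_upwards [eventually_ge_atTop M] with i hi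
    have : i + 1 ≤ u q (i + 1) := (u_strictMono hq).le_apply
    omega
  have ev3 : ∀ᶠ i : ℕ in atTop, (4 * i + 2 : ℝ) ≤ δ * 4 ^ (i + 1) := by
    have h1 : Tendsto (fun i : ℕ => ((i : ℝ) ^ 1) / (4 : ℝ) ^ i) atTop (𝓝 0) :=
      tendsto_pow_const_div_const_pow_of_one_lt 1 (by norm_num)
    have h2 := h1.eventually_le_const (show (0 : ℝ) < δ / 2 by positivity)
    filter_upwards [h2, eventually_ge_atTop 1] with i hi hi1
    rw [div_le_iff₀ (by positivity)] at hi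
    have hi1' : (1 : ℝ) ≤ i := by exact_mod_cast hi1
    rw [pow_succ]
    rw [pow_one] at hi
    nlinarith
  have hev := (ev1.and (ev2.and ev3))
  rw [frequently_atTop]
  intro N
  obtain ⟨N', hN'⟩ := eventually_atTop.mp hev
  set i := 2 * (max N N') with hi
  obtain ⟨h1, h2, h3⟩ := hN' i (by omega)
  refine ⟨i, by omega, ?_⟩
  have hsub : {j : ℕ | j ∈ {j : ℕ | ‖(T ^ j) z‖ < 1} ∧ 1 ≤ j ∧ j ≤ u q (i + 1)} ⊆
      ((Finset.range (4 * i * u q i) ∪ Finset.Icc (u q (i + 1) - u q i) (u q (i + 1)) :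
        Finset ℕ) : Set ℕ) := by
    rintro j ⟨hj1, hj2, hj3⟩
    rw [Finset.mem_coe, Finset.mem_union, Finset.mem_range, Finset.mem_Icc]
    by_contra hcon
    push Not at hcon
    obtain ⟨hc1, hc2⟩ := hcon
    have hlt := u_lt_succ hq i
    have h4 : j + u q i < u q (i + 1) := by
      by_contra h5
      have := hc2 (by omega)
      omega
    have h5 := norm_pow_ge hS hq hT hz (even_two_mul _) h2 hc1 h4
    have h6 : ‖(T ^ j) z‖ < 1 := hj1
    rw [← hi] at h5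
    linarith
  have hcard := Set.ncard_le_ncard hsub (Finset.finite_toSet _)
  rw [Set.ncard_coe_finset] at hcard
  have hcard2 := Finset.card_union_le (Finset.range (4 * i * u q i))
    (Finset.Icc (u q (i + 1) - u q i) (u q (i + 1)))
  rw [Finset.card_range, Nat.card_Icc] at hcard2
  have hu1 := u_pos hq i
  have hlt := u_lt_succ hq i
  have hcard3 : Set.ncard {j : ℕ | j ∈ {j : ℕ | ‖(T ^ j) z‖ < 1} ∧ 1 ≤ j ∧ j ≤ u q (i + 1)}
      ≤ (4 * i + 2) * u q i := by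
    have : (4 * i + 2) * u q i = 4 * i * u q i + (u q i + u q i) := by ring
    omega
  have hcard4 : (Set.ncard {j : ℕ | j ∈ {j : ℕ | ‖(T ^ j) z‖ < 1} ∧ 1 ≤ j ∧ j ≤ u q (i + 1)} : ℝ)
      ≤ (4 * i + 2) * u q i := by exact_mod_cast hcard3
  refine hcard4.trans ?_
  push_cast
  rw [← mul_assoc]
  exact mul_le_mul_of_nonneg_right h3 (by positivity)

lemma ld_large (hS : SeqSpace c) (hq : 1 ≤ q)
    (hT : ∀ x n, c (T x) n = (wt q (n + 1) : 𝕜) * c x (n + 1)) {z : X} {κ : 𝕜}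
    {M : ℕ} (hz : ∀ n, M ≤ n → c z n = κ * irr 𝕜 q n) {ε : ℝ} (hε : 0 < ε) :
    lowerDensity q {j : ℕ | ‖(T ^ j) z‖ > ε} = 0 := by
  apply lowerDensity_eq_zero hq
  intro δ hδ
  obtain ⟨N₀, hN₀⟩ := hS.tail z (ε / 2) (by positivity)
  have ev3 : ∀ᶠ i : ℕ in atTop, (1 : ℝ) ≤ δ * 4 ^ (i + 1) := by
    have : Tendsto (fun i : ℕ => δ * (4 : ℝ) ^ (i + 1)) atTop atTop :=
      ((tendsto_pow_atTop_atTop_of_one_lt (by norm_num)).comp (tendsto_add_atTop_nat 1)).const_mul_atTop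
        hδ
    exact this.eventually_ge_atTop 1
  rw [frequently_atTop]
  intro N
  obtain ⟨N', hN'⟩ := eventually_atTop.mp ev3
  set k := N + N' + N₀ + M with hk
  refine ⟨2 * k + 1, by omega, ?_⟩
  have h3 := hN' (2 * k + 1) (by omega)
  have hku : 2 * k + 1 ≤ u q (2 * k + 1) := (u_strictMono hq).le_apply
  have hsub : {j : ℕ | j ∈ {j : ℕ | ‖(T ^ j) z‖ > ε} ∧ 1 ≤ j ∧ j ≤ u q (2 * k + 1 + 1)} ⊆
      ((Finset.Icc 1 (u q (2 * k + 1)) : Finset ℕ) : Set ℕ) := by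
    rintro j ⟨hj1, hj2, hj3⟩
    rw [Finset.mem_coe, Finset.mem_Icc]
    refine ⟨hj2, ?_⟩
    by_contra hcon
    push Not at hcon
    have hj1' : ε < ‖(T ^ j) z‖ := hj1
    obtain ⟨y, hy, -⟩ := exists_cut hS z (u q (2 * k + 1) + 1)
    rw [pow_cut hS hT hy (by omega)] at hj1'
    have hyn : ‖y‖ < ε / 2 := by
      obtain ⟨y', hy', hyy'⟩ := exists_cut hS z N₀
      have h1 : ‖y'‖ < ε / 2 := by
        apply hN₀
        · intro n hn
          rw [hy', if_neg (by omega)]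
        · intro n hn
          rw [hy', if_pos hn]
      obtain ⟨y'', hy'', hyy''⟩ := exists_cut hS y' (u q (2 * k + 1) + 1)
      have h2 : y'' = y := by
        apply hS.inj
        funext n
        rw [hy, hy'', hy']
        by_cases hn : n < u q (2 * k + 1) + 1
        · rw [if_pos hn, if_pos hn]
        · rw [if_neg hn, if_neg hn, if_neg (by omega)]
      rw [← h2]
      linarith
    have hle := norm_pow_le hS hq hT (i := 2 * k + 2) (j := j) (by
      have : 2 * k + 1 + 1 = 2 * k + 2 := rfl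
      rw [this] at hj3
      omega) y (by
      intro n hn
      rw [hy, if_neg (by omega), hz _ (by omega), irr_eq_zero hq (k := k) (by omega) hn, mul_zero])
    linarith
  have hcard := Set.ncard_le_ncard hsub (Finset.finite_toSet _)
  rw [Set.ncard_coe_finset, Nat.card_Icc, Nat.add_sub_cancel] at hcard
  have hcard' : (Set.ncard {j : ℕ | j ∈ {j : ℕ | ‖(T ^ j) z‖ > ε} ∧ 1 ≤ j ∧
      j ≤ u q (2 * k + 1 + 1)} : ℝ) ≤ u q (2 * k + 1) := by exact_mod_cast hcard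
  refine hcard'.trans ?_
  push_cast
  rw [← mul_assoc]
  have h0 : (0 : ℝ) ≤ u q (2 * k + 1) := by positivity
  nlinarith

end Pool.Agent.Lib.MP_39b2af_an
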