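import Mathlib
import Pool.Agent.Lib.MP_39b2af_an.Chaos

/-!
The dense scrambled set, and the abstract main statement.
-/

open Filter Real Topology
open scoped ENNReal

namespace Pool.Agent.Lib.MP_39b2af_an

variable {𝕜 X : Type*} [RCLike 𝕜] [NormedAddCommGroup X] [NormedSpace 𝕜 X]
variable {c : X →ₗ[𝕜] (ℕ → 𝕜)}

/-- There is a dense sequence of finitely supported vectors. -/
lemma exists_dense_seq (hS : SeqSpace c) :
    ∃ y : ℕ → X, DenseRange y ∧ ∀ k, ∃ M, ∀ n, M ≤ n → c (y k) n = 0 := by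
  have hb : ∀ m : ℕ, ∃ b : X, c b = Pi.single m 1 := by
    intro m
    apply hS.summ
    apply summable_of_hasFiniteSupport
    apply (Set.finite_singleton m).subset
    intro n hn
    by_contra hne
    apply hn
    have : n ≠ m := hne
    simp [this]
  choose b hb using hb
  set F : Submodule 𝕜 X := Submodule.span 𝕜 (Set.range b) with hF
  have hFfin : ∀ y ∈ F, ∃ M, ∀ n, M ≤ n → c y n = 0 := by
    intro y hy
    induction hy using Submodule.span_induction with
    | mem x hx =>
      obtain ⟨m, rfl⟩ := hx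
      refine ⟨m + 1, fun n hn => ?_⟩
      rw [hb]
      have : n ≠ m := by omega
      simp [this]
    | zero => exact ⟨0, fun n _ => by simp⟩
    | add x y _ _ hx hy =>
      obtain ⟨M₁, h₁⟩ := hx
      obtain ⟨M₂, h₂⟩ := hy
      refine ⟨max M₁ M₂, fun n hn => ?_⟩
      rw [map_add, Pi.add_apply, h₁ n (le_trans (le_max_left _ _) hn),
        h₂ n (le_trans (le_max_right _ _) hn), add_zero]
    | smul a x _ hx =>
      obtain ⟨M, h⟩ := hx
      refine ⟨M, fun n hn => ?_⟩
      rw [map_smul, Pi.smul_apply, h n hn, smul_zero]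
  have hFdense : Dense (F : Set X) := by
    intro x
    rw [Metric.mem_closure_iff]
    intro ε hε
    obtain ⟨N, hN⟩ := hS.tail x ε hε
    refine ⟨∑ m ∈ Finset.range N, c x m • b m, ?_, ?_⟩
    · apply Submodule.sum_mem
      intro m _
      exact F.smul_mem _ (Submodule.subset_span ⟨m, rfl⟩)
    · rw [dist_eq_norm]
      have hcoord : ∀ n, c (∑ m ∈ Finset.range N, c x m • b m) n = if n < N then c x n else 0 := by
        intro n
        rw [map_sum, Finset.sum_apply]
        simp only [map_smul, hb, Pi.smul_apply, smul_eq_mul, Pi.single_apply, mul_ite, mul_one,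
          mul_zero, Finset.sum_ite_eq, Finset.mem_range]
      apply hN
      · intro n hn
        rw [map_sub, Pi.sub_apply, hcoord, if_neg (by omega), sub_zero]
      · intro n hn
        rw [map_sub, Pi.sub_apply, hcoord, if_pos hn, sub_self]
  have hsep : TopologicalSpace.IsSeparable (F : Set X) :=
    (Set.countable_range b).isSeparable.span
  obtain ⟨t, htF, htc, hFt⟩ := hsep.exists_countable_dense_subset
  have htd : Dense t := hFdense.mono hFt |>.of_closure
  obtain ⟨y, hy⟩ := htc.exists_eq_range htd.nonempty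
  refine ⟨y, ?_, ?_⟩
  · rw [DenseRange, ← hy]; exact htd
  · intro k
    apply hFfin
    apply htF
    rw [hy]
    exact ⟨k, rfl⟩

theorem abstract_main (hS : SeqSpace c) {lam : ℝ} (h0 : 0 < lam) (h1 : lam ≤ 1) :
    ∃ T : X →L[𝕜] X, (∀ x n, c (T x) n = (wt (1 / lam) (n + 1) : 𝕜) * c x (n + 1)) ∧
      DenselyDistChaotic lam T ∧ ∀ lam', 0 < lam' → lam' < lam → ¬ DistChaotic lam' T := by
  have hq : 1 ≤ 1 / lam := by rw [le_div_iff₀ h0]; linarith
  set q := 1 / lam with hqdef
  obtain ⟨T, hT⟩ := exists_shift hS hq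
  refine ⟨T, hT, ?_, fun lam' h0' hlt => not_chaotic hS h0 h1 h0' hlt hT⟩
  obtain ⟨x, hx⟩ := hS.summ (irr 𝕜 q) (irr_summable hq)
  obtain ⟨y, hyd, hyf⟩ := exists_dense_seq hS
  -- the scrambled family
  let Y : ℝ → X := fun r => y (Nat.unpair ⌊r⁻¹⌋₊).1
  let f : ℝ → X := fun r => Y r + (r : 𝕜) • x
  have hdiff : ∀ r s, r ≠ s → ∃ M, ∀ n, M ≤ n →
      c (f r - f s) n = (((r - s : ℝ)) : 𝕜) * irr 𝕜 q n := by
    intro r s hrs
    obtain ⟨M₁, h₁⟩ := hyf (Nat.unpair ⌊r⁻¹⌋₊).1
    obtain ⟨M₂, h₂⟩ := hyf (Nat.unpair ⌊s⁻¹⌋₊).1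
    refine ⟨max M₁ M₂, fun n hn => ?_⟩
    simp only [f, Y, map_sub, map_add, map_smul, Pi.sub_apply, Pi.add_apply, Pi.smul_apply,
      smul_eq_mul]
    rw [h₁ n (le_trans (le_max_left _ _) hn), h₂ n (le_trans (le_max_right _ _) hn), hx]
    push_cast
    ring
  have hchaos : ∀ r s, r ≠ s →
      lowerDensity q {j : ℕ | ‖(T ^ j) (f r) - (T ^ j) (f s)‖ < 1} = 0 ∧
      ∀ ε : ℝ, 0 < ε → lowerDensity q {j : ℕ | ‖(T ^ j) (f r) - (T ^ j) (f s)‖ > ε} = 0 := by
    intro r s hrs
    obtain ⟨M, hM⟩ := hdiff r s hrs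
    have hne : (((r - s : ℝ)) : 𝕜) ≠ 0 := by
      rw [RCLike.ofReal_ne_zero]
      exact sub_ne_zero.mpr hrs
    simp only [← map_sub]
    exact ⟨ld_small hS hq hT hne hM, fun ε hε => ld_large hS hq hT hM hε⟩
  have hinj : Function.Injective f := by
    intro r s hrs
    by_contra hne
    have h := (hchaos r s hne).1
    rw [hrs] at h
    have : {j : ℕ | ‖(T ^ j) (f s) - (T ^ j) (f s)‖ < 1} = Set.univ := by
      ext j
      simp
    rw [this] at h
    exact lowerDensity_univ_ne_zero hq h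
  refine ⟨Set.range f, ?_, ?_, 1, one_pos, ?_⟩
  · intro hc
    have : (Set.univ : Set ℝ).Countable := by
      rw [← Set.preimage_range f]
      exact hc.preimage hinj
    exact Cardinal.not_countable_real this
  · rw [← DenseRange]
    intro z
    rw [Metric.mem_closure_iff]
    intro ε hε
    obtain ⟨k, hk⟩ := Metric.denseRange_iff.mp hyd z (ε / 2) (by positivity)
    have htend : Tendsto (fun m : ℕ => ‖(((((Nat.pair k m : ℕ) : ℝ)⁻¹ : ℝ)) : 𝕜) • x‖) atTop
        (𝓝 0) := by
      have h1 : Tendsto (fun m : ℕ => (((Nat.pair k m : ℕ) : ℝ)⁻¹) * ‖x‖) atTop (𝓝 (0 * ‖x‖)) := by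
        apply Tendsto.mul_const
        apply tendsto_inv_atTop_zero.comp
        apply tendsto_natCast_atTop_atTop.comp
        exact tendsto_atTop_mono (fun m => Nat.right_le_pair k m) tendsto_id
      rw [zero_mul] at h1
      refine h1.congr (fun m => ?_)
      rw [norm_smul, RCLike.norm_ofReal, abs_of_nonneg (by positivity)]
    obtain ⟨m, hm1, hm2⟩ := ((htend.eventually_lt_const (show (0 : ℝ) < ε / 2 by positivity)).and
      (eventually_ge_atTop 1)).exists
    refine ⟨f (((Nat.pair k m : ℕ) : ℝ)⁻¹), ⟨_, rfl⟩, ?_⟩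
    have hY : Y (((Nat.pair k m : ℕ) : ℝ)⁻¹) = y k := by
      simp only [Y, inv_inv, Nat.floor_natCast, Nat.unpair_pair]
    calc dist z (f (((Nat.pair k m : ℕ) : ℝ)⁻¹)) ≤ dist z (y k) +
          dist (y k) (f (((Nat.pair k m : ℕ) : ℝ)⁻¹)) := dist_triangle _ _ _
      _ < ε / 2 + ε / 2 := by
          apply add_lt_add hk
          rw [dist_eq_norm]
          simp only [f]
          rw [hY, sub_add_cancel_left, norm_neg]
          exact hm1
      _ = ε := by ring
  · rintro _ ⟨r, rfl⟩ _ ⟨s, rfl⟩ hrs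
    have h := hchaos r s (fun h => hrs (by rw [h]))
    simp only [FunLike.coe_pow_eq_iterate] at h
    exact h

end Pool.Agent.Lib.MP_39b2af_an
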