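import Mathlib
import Pool.Agent.Lib.MP_39b2af_an.Dense

/-!
The spaces `ℓ^p`, `1 ≤ p < ∞`, and `c_0` satisfy the abstract hypotheses.
-/

open Filter Real Topology
open scoped ENNReal ZeroAtInfty

namespace Pool.Agent.Lib.MP_39b2af_an

/-- Coordinates on `ℓ^p`. -/
def coordLp (𝕜 : Type*) [RCLike 𝕜] (p : ℝ≥0∞) [Fact (1 ≤ p)] :
    lp (fun _ : ℕ => 𝕜) p →ₗ[𝕜] (ℕ → 𝕜) where
  toFun x := ⇑x
  map_add' _ _ := rfl
  map_smul' _ _ := rfl

lemma coordLp_apply {𝕜 : Type*} [RCLike 𝕜] {p : ℝ≥0∞} [Fact (1 ≤ p)]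
    (x : lp (fun _ : ℕ => 𝕜) p) (n : ℕ) : coordLp 𝕜 p x n = x n := rfl

lemma seqSpace_lp (𝕜 : Type*) [RCLike 𝕜] (p : ℝ≥0∞) [hp1 : Fact (1 ≤ p)] (hp : p ≠ ∞) :
    SeqSpace (coordLp 𝕜 p) := by
  have hp0 : p ≠ 0 := (zero_lt_one.trans_le hp1.out).ne'
  have hpr : 0 < p.toReal := ENNReal.toReal_pos hp0 hp
  refine ⟨fun x y h => lp.ext h, fun x n => lp.norm_apply_le_norm hp0 x n, ?_, ?_, ?_⟩
  · intro x a j C hC ha
    have hsum : Summable (fun n => ‖x n‖ ^ p.toReal) := (lp.memℓp x).summable hpr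
    have hsumj : Summable (fun n => ‖x (n + j)‖ ^ p.toReal) :=
      (summable_nat_add_iff j).mpr hsum
    have hle : ∀ n, ‖a n‖ ^ p.toReal ≤ C ^ p.toReal * ‖x (n + j)‖ ^ p.toReal := by
      intro n
      rw [← Real.mul_rpow hC (norm_nonneg _)]
      exact Real.rpow_le_rpow (norm_nonneg _) (ha n) hpr.le
    have hsa : Summable (fun n => ‖a n‖ ^ p.toReal) :=
      Summable.of_nonneg_of_le (fun n => by positivity) hle (hsumj.mul_left _)
    refine ⟨⟨a, memℓp_gen hsa⟩, rfl, ?_⟩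
    apply lp.norm_le_of_tsum_le hpr (by positivity)
    rw [Real.mul_rpow hC (norm_nonneg _), lp.norm_rpow_eq_tsum hpr x]
    calc ∑' n, ‖a n‖ ^ p.toReal ≤ ∑' n, C ^ p.toReal * ‖x (n + j)‖ ^ p.toReal :=
          hsa.tsum_le_tsum hle (hsumj.mul_left _)
      _ = C ^ p.toReal * ∑' n, ‖x (n + j)‖ ^ p.toReal := tsum_mul_left
      _ ≤ C ^ p.toReal * ∑' n, ‖x n‖ ^ p.toReal := by
          apply mul_le_mul_of_nonneg_left _ (by positivity)
          rw [← hsum.sum_add_tsum_nat_add j]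
          have : 0 ≤ ∑ i ∈ Finset.range j, ‖x i‖ ^ p.toReal :=
            Finset.sum_nonneg (fun i _ => by positivity)
          linarith
  · intro a ha
    have h1 : Memℓp a 1 := by
      apply memℓp_gen
      simpa using ha
    exact ⟨⟨a, h1.of_exponent_ge hp1.out⟩, rfl⟩
  · intro x ε hε
    have hsum : Summable (fun n => ‖x n‖ ^ p.toReal) := (lp.memℓp x).summable hpr
    have htend : Tendsto (fun N => ∑' n, ‖x (n + N)‖ ^ p.toReal) atTop (𝓝 0) :=
      tendsto_sum_nat_add (fun n => ‖x n‖ ^ p.toReal)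
    obtain ⟨N, hN⟩ := (htend.eventually_lt_const
      (show (0 : ℝ) < ε ^ p.toReal by positivity)).exists
    refine ⟨N, fun y hy1 hy2 => ?_⟩
    have hsumy : Summable (fun n => ‖y n‖ ^ p.toReal) := (lp.memℓp y).summable hpr
    rw [← Real.rpow_lt_rpow_iff (norm_nonneg _) hε.le hpr, lp.norm_rpow_eq_tsum hpr y,
      ← hsumy.sum_add_tsum_nat_add N]
    have h1 : ∑ i ∈ Finset.range N, ‖y i‖ ^ p.toReal = 0 := by
      apply Finset.sum_eq_zero
      intro i hi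
      have : y i = 0 := hy2 i (Finset.mem_range.mp hi)
      rw [this, norm_zero, Real.zero_rpow hpr.ne']
    have h2 : ∑' n, ‖y (n + N)‖ ^ p.toReal = ∑' n, ‖x (n + N)‖ ^ p.toReal := by
      congr 1
      funext n
      have : y (n + N) = x (n + N) := hy1 (n + N) (by omega)
      rw [this]
    rw [h1, h2, zero_add]
    exact hN

/-- Coordinates on `c_0`. -/
def coordC0 (𝕜 : Type*) [RCLike 𝕜] : C₀(ℕ, 𝕜) →ₗ[𝕜] (ℕ → 𝕜) where
  toFun x := ⇑x
  map_add' _ _ := rfl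
  map_smul' _ _ := rfl

lemma norm_le_C0 {𝕜 : Type*} [RCLike 𝕜] {x : C₀(ℕ, 𝕜)} {C : ℝ} (hC : 0 ≤ C) :
    ‖x‖ ≤ C ↔ ∀ n, ‖x n‖ ≤ C := by
  rw [← ZeroAtInftyContinuousMap.norm_toBCF_eq_norm, BoundedContinuousFunction.norm_le hC]
  rfl

lemma seqSpace_C0 (𝕜 : Type*) [RCLike 𝕜] : SeqSpace (coordC0 𝕜) := by
  have hmk : ∀ a : ℕ → 𝕜, Tendsto a atTop (𝓝 0) → ∃ y : C₀(ℕ, 𝕜), ⇑y = a := by
    intro a ha
    refine ⟨⟨⟨a, continuous_of_discreteTopology⟩, ?_⟩, rfl⟩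
    rw [cocompact_eq_cofinite, Nat.cofinite_eq_atTop]
    exact ha
  have htend : ∀ x : C₀(ℕ, 𝕜), Tendsto (⇑x) atTop (𝓝 0) := by
    intro x
    have := x.zero_at_infty'
    rw [cocompact_eq_cofinite, Nat.cofinite_eq_atTop] at this
    exact this
  have hcoord : ∀ (x : C₀(ℕ, 𝕜)) n, ‖x n‖ ≤ ‖x‖ := fun x n =>
    (norm_le_C0 (norm_nonneg x)).mp le_rfl n
  refine ⟨fun x y h => DFunLike.coe_injective h, hcoord, ?_, ?_, ?_⟩
  · intro x a j C hC ha
    have ha0 : Tendsto a atTop (𝓝 0) := by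
      apply squeeze_zero_norm ha
      have h1 : Tendsto (fun n => C * ‖x (n + j)‖) atTop (𝓝 (C * ‖(0 : 𝕜)‖)) :=
        (((htend x).comp (tendsto_add_atTop_nat j)).norm).const_mul C
      rw [norm_zero, mul_zero] at h1
      exact h1
    obtain ⟨y, hy⟩ := hmk a ha0
    refine ⟨y, hy, ?_⟩
    rw [norm_le_C0 (by positivity)]
    intro n
    rw [hy]
    exact (ha n).trans (mul_le_mul_of_nonneg_left (hcoord _ _) hC)
  · intro a ha
    obtain ⟨y, hy⟩ := hmk a (tendsto_zero_iff_norm_tendsto_zero.mpr ha.tendsto_atTop_zero)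
    exact ⟨y, hy⟩
  · intro x ε hε
    have h1 : ∀ᶠ n in atTop, ‖x n‖ < ε / 2 := by
      have := (htend x).norm
      rw [norm_zero] at this
      exact this.eventually_lt_const (by positivity)
    obtain ⟨N, hN⟩ := eventually_atTop.mp h1
    refine ⟨N, fun y hy1 hy2 => ?_⟩
    have : ‖y‖ ≤ ε / 2 := by
      rw [norm_le_C0 (by positivity)]
      intro n
      rcases lt_or_ge n N with hn | hn
      · have : y n = 0 := hy2 n hn
        rw [this, norm_zero]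
        positivity
      · have : y n = x n := hy1 n hn
        rw [this]
        exact (hN n hn).le
    linarith

end Pool.Agent.Lib.MP_39b2af_an
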